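import Pool.Agent.helper77.SK.Spec

/-! Row LB of SK (Lagrange basis). -/

set_option autoImplicit false

namespace Pool.Agent.SK

open Polynomial Finset

theorem LB_term (p : ℕ) [Fact p.Prime] (B : Finset (ZMod p)) (b : ZMod p) (hb : b ∈ B) :
    C (cw B b) * ∏ b' ∈ B.erase b, (X - C b') =
      C ((-1 : ZMod p) ^ (B.card - 1)) * Lagrange.basis B id b := by
  have h1 : cw B b = (-1 : ZMod p) ^ (B.card - 1) * ∏ b' ∈ B.erase b, (b - b')⁻¹ := by
    unfold cw
    rw [← Finset.card_erase_of_mem hb, ← Finset.prod_const, ← Finset.prod_mul_distrib]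
    apply Finset.prod_congr rfl
    intro x _
    rw [← neg_sub b x, inv_neg, neg_one_mul]
  have h2 : Lagrange.basis B id b =
      C (∏ b' ∈ B.erase b, (b - b')⁻¹) * ∏ b' ∈ B.erase b, (X - C b') := by
    unfold Lagrange.basis Lagrange.basisDivisor
    rw [Finset.prod_mul_distrib, map_prod]
    rfl
  rw [h1, h2, C_mul, mul_assoc]

theorem LB : LB_stmt := by
  intro p _ B hB
  rw [Finset.sum_congr rfl (fun b hb => LB_term p B b hb), ← Finset.mul_sum,
    Lagrange.sum_basis Function.injective_id.injOn hB, mul_one]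

end Pool.Agent.SK
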